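import Pool.Agent.helper7.CSG.SpecJ

/-!
# Project csg: row LSX: THE ONE STEP INEQUALITY with divided obstacles
-/

set_option autoImplicit false

open Complex Metric Set Filter Topology MeasureTheory
open Pool.Agent.helper98.ILF
open HY (UD T S hd UN RM)
open PM (DD rm cx pd cr hdf)
open CSF (Sy it PB VC Lv Om PV hdx FC RL gg bt)

noncomputable section

namespace CSJ

lemma LSX_isOpenUD : IsOpen UD := isOpen_ball

lemma LSX_mem {x : ℂ} : x ∈ UD ↔ ‖x‖ < 1 := by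
  unfold HY.UD
  rw [mem_ball, dist_zero_right]

open Classical in
/-- (A): the one step inequality with `kk`. -/
lemma LSX_A (hSTP : STP_stmt) (hKKF : CSF.KKF_stmt) (hTDF : PM.TDF_stmt) (hTIN : PM.TIN_stmt) (Y : Sy) (hY : Ok Y) (U U' : Set ℂ)
    (hU : DD U) (hU' : DD U') (hcc : ∀ z ∈ U', U' = connectedComponentIn (Y.f ⁻¹' U) z) (z : ℂ) (hz : z ∈ U') (hfz : Y.f z ∉ Y.S) :
    (∏ s ∈ Y.S.filter (fun s => s ∈ U), CSF.kk (pd U (Y.f z) s)) ≤ hdf Y.f U' U z := by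
  have hzU : Y.f z ∈ U := by
    have h1 : z ∈ connectedComponentIn (Y.f ⁻¹' U) z := by rw [← hcc z hz]; exact hz
    have h2 : z ∈ Y.f ⁻¹' U := connectedComponentIn_subset _ _ h1
    exact h2
  obtain ⟨W'', hD, hzW, hmap, hle⟩ := hSTP Y hY U z hU hzU hfz
  have hsub : W'' ⊆ U' := by
    rw [hcc z hz]
    exact (hTDF W'' hD).2.1.subset_connectedComponentIn hzW (fun x hx => hmap hx)
  have hprod : (∏ s ∈ Y.S.filter (fun s => s ∈ U), CSF.kk (pd U (Y.f z) s)) = ∏ s ∈ Y.S, CSF.kk (pd U (Y.f z) s) := by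
    rw [Finset.prod_filter]
    refine Finset.prod_congr rfl (fun s hs => ?_)
    split_ifs with h
    · rfl
    · have h2 : pd U (Y.f z) s = 1 := by
        unfold PM.pd
        rw [if_neg]
        tauto
      rw [h2, hKKF.2.1]
  rw [hprod]
  refine hle.trans ?_
  unfold PM.hdf
  have hcr := (hTIN W'' U' hD hU' hsub z hzW).1
  have hpos := ((hTDF U hU).2.2 (Y.f z) hzU).2.1
  exact div_le_div_of_nonneg_right (mul_le_mul_of_nonneg_left hcr (norm_nonneg _)) hpos.le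

/-- points which leave `U` have hyperbolic distance `→ ∞` from `s ∈ U`. -/
lemma LSX_C (hTDF : PM.TDF_stmt) (hTPT : PM.TPT_stmt) (U : Set ℂ) (hU : DD U) (s : ℂ) (hs : s ∈ U) (y : ℕ → ℂ) (hy : ∀ n, y n ∈ U) (η : ℂ)
    (hη : η ∉ U) (hlim : Tendsto y atTop (𝓝 η)) : Tendsto (fun n => pd U (y n) s) atTop (𝓝 1) := by
  obtain ⟨hUo, -, hUa⟩ := hTDF U hU
  obtain ⟨hRM, -, -, -, -, hb, hx⟩ := hUa s hs
  have hpd : ∀ n, pd U (y n) s = ‖cx U s (y n)‖ := by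
    intro n
    rw [(hTPT U hU (y n) (hy n) s hs s hs).1]
    exact (hb (y n) (hy n)).2.2.1
  rw [Metric.tendsto_atTop]
  intro δ hδ
  set δ' : ℝ := min δ 1 with hδ'
  have hδ'0 : 0 < δ' := lt_min hδ one_pos
  have hK : IsCompact (rm U s '' closedBall 0 (1 - δ')) := by
    refine (isCompact_closedBall (0 : ℂ) (1 - δ')).image_of_continuousOn ?_
    refine hRM.dif.continuousOn.mono ?_
    intro x hx'
    rw [mem_closedBall, dist_zero_right] at hx'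
    rw [LSX_mem]
    linarith
  have hηK : η ∉ rm U s '' closedBall 0 (1 - δ') := by
    rintro ⟨x, hx', rfl⟩
    rw [mem_closedBall, dist_zero_right] at hx'
    exact hη ((hx x (LSX_mem.2 (by linarith))).1)
  have hev : ∀ᶠ n in atTop, y n ∈ (rm U s '' closedBall 0 (1 - δ'))ᶜ := hlim (hK.isClosed.isOpen_compl.mem_nhds hηK)
  obtain ⟨N, hN⟩ := eventually_atTop.1 hev
  refine ⟨N, fun n hn => ?_⟩
  have h1 := hN n hn
  have hlt : 1 - δ' < ‖cx U s (y n)‖ := by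
    by_contra hcon
    push Not at hcon
    exact h1 ⟨cx U s (y n), by rw [mem_closedBall, dist_zero_right]; exact hcon, (hb (y n) (hy n)).2.1⟩
  have h2 : ‖cx U s (y n)‖ < 1 := LSX_mem.1 (hb (y n) (hy n)).1
  rw [hpd, Real.dist_eq, abs_lt]
  have h3 : δ' ≤ δ := min_le_left _ _
  constructor <;> linarith

/-- the chain rule for `F u = cx U (f z₀) (f (rm U' z₀ u))`. -/
lemma LSX_F (hTDF : PM.TDF_stmt) (hTPM : PM.TPM_stmt) (f : ℂ → ℂ) (hf : Differentiable ℂ f) (U U' : Set ℂ) (hU : DD U) (hU' : DD U')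
    (hmap : MapsTo f U' U) (z₀ : ℂ) (hz₀ : z₀ ∈ U') :
    DifferentiableOn ℂ (fun u => cx U (f z₀) (f (rm U' z₀ u))) UD ∧ MapsTo (fun u => cx U (f z₀) (f (rm U' z₀ u))) UD UD ∧
    (∀ u ∈ UD, rm U' z₀ u ∈ U' ∧ rm U (f z₀) (cx U (f z₀) (f (rm U' z₀ u))) = f (rm U' z₀ u)) ∧
    (∀ u ∈ UD, PL.hq (fun u => cx U (f z₀) (f (rm U' z₀ u))) u = hdf f U' U (rm U' z₀ u)) ∧
    ∀ u ∈ UD, deriv (fun u => cx U (f z₀) (f (rm U' z₀ u))) u = 0 → deriv f (rm U' z₀ u) = 0 := by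
  obtain ⟨hU'o, -, hU'a⟩ := hTDF U' hU'
  obtain ⟨hUo, -, hUa⟩ := hTDF U hU
  obtain ⟨hRM', -, -, -, -, hb', hx'⟩ := hU'a z₀ hz₀
  obtain ⟨hRM, -, -, -, hcxd, hb, hx⟩ := hUa (f z₀) (hmap hz₀)
  have hin : ∀ u ∈ UD, rm U' z₀ u ∈ U' := fun u hu => (hx' u hu).1
  have hFd : DifferentiableOn ℂ (fun u => cx U (f z₀) (f (rm U' z₀ u))) UD := by
    refine hcxd.comp (hf.comp_differentiableOn hRM'.dif) ?_
    intro u hu
    exact hmap (hin u hu)
  have hFm : MapsTo (fun u => cx U (f z₀) (f (rm U' z₀ u))) UD UD := fun u hu => (hb _ (hmap (hin u hu))).1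
  have hρ : ∀ u ∈ UD, rm U (f z₀) (cx U (f z₀) (f (rm U' z₀ u))) = f (rm U' z₀ u) := fun u hu => (hb _ (hmap (hin u hu))).2.1
  have hch : ∀ u ∈ UD, deriv (rm U (f z₀)) (cx U (f z₀) (f (rm U' z₀ u))) * deriv (fun u => cx U (f z₀) (f (rm U' z₀ u))) u
      = deriv f (rm U' z₀ u) * deriv (rm U' z₀) u := by
    intro u hu
    have h1 : HasDerivAt (rm U (f z₀)) (deriv (rm U (f z₀)) (cx U (f z₀) (f (rm U' z₀ u)))) (cx U (f z₀) (f (rm U' z₀ u))) :=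
      (hRM.dif.differentiableAt (LSX_isOpenUD.mem_nhds (hFm hu))).hasDerivAt
    have h2 : HasDerivAt (fun u => cx U (f z₀) (f (rm U' z₀ u))) (deriv (fun u => cx U (f z₀) (f (rm U' z₀ u))) u) u :=
      (hFd.differentiableAt (LSX_isOpenUD.mem_nhds hu)).hasDerivAt
    have h3 := h1.comp u h2
    have h4 : HasDerivAt f (deriv f (rm U' z₀ u)) (rm U' z₀ u) := (hf _).hasDerivAt
    have h5 : HasDerivAt (rm U' z₀) (deriv (rm U' z₀) u) u := (hRM'.dif.differentiableAt (LSX_isOpenUD.mem_nhds hu)).hasDerivAt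
    have h6 := h4.comp u h5
    have h7 : (rm U (f z₀) ∘ fun u => cx U (f z₀) (f (rm U' z₀ u))) =ᶠ[𝓝 u] (f ∘ rm U' z₀) := by
      filter_upwards [LSX_isOpenUD.mem_nhds hu] with v hv
      exact hρ v hv
    exact (h3.congr_of_eventuallyEq h7.symm).unique h6
  refine ⟨hFd, hFm, fun u hu => ⟨hin u hu, hρ u hu⟩, ?_, ?_⟩
  · intro u hu
    have e1 := ((hTPM U' z₀ (rm U' z₀) hRM').2 u hu).1
    have e2 := ((hTPM U (f z₀) (rm U (f z₀)) hRM).2 _ (hFm hu)).1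
    simp only at e2
    rw [hρ u hu] at e2
    have e3 := congrArg (fun x : ℂ => ‖x‖) (hch u hu)
    simp only [norm_mul] at e3
    have n1 : ‖deriv (rm U (f z₀)) (cx U (f z₀) (f (rm U' z₀ u)))‖ ≠ 0 := norm_ne_zero_iff.2 (hx _ (hFm hu)).2.2.2
    have n2 : ‖cx U (f z₀) (f (rm U' z₀ u))‖ < 1 := LSX_mem.1 (hFm hu)
    have n3 : 1 - ‖cx U (f z₀) (f (rm U' z₀ u))‖ ^ 2 ≠ 0 := by
      have h8 : ‖cx U (f z₀) (f (rm U' z₀ u))‖ ^ 2 < 1 := pow_lt_one₀ (norm_nonneg _) n2 two_ne_zero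
      intro h9
      linarith
    unfold PL.hq PM.hdf
    rw [e1, e2]
    rw [div_eq_div_iff n3 (mul_ne_zero n1 n3)]
    linear_combination (1 - ‖u‖ ^ 2) * (1 - ‖cx U (f z₀) (f (rm U' z₀ u))‖ ^ 2) * e3
  · intro u hu h0
    have h1 := hch u hu
    rw [h0, mul_zero] at h1
    rcases mul_eq_zero.1 h1.symm with h2 | h2
    · exact h2
    · exact absurd h2 (hx' u hu).2.2.2

open Classical in
/-- the critical points of `F`. -/
lemma LSX_D (hLSD : LSD_stmt) (hHSB : HSB_stmt) (hTDF : PM.TDF_stmt) (hTPM : PM.TPM_stmt) (hTPT : PM.TPT_stmt) (hTIN : PM.TIN_stmt)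
    (Y : Sy) (hY : Ok Y) (W W' U U' : Set ℂ) (hW : DD W) (hW' : DD W') (hU : DD U) (hU' : DD U') (hUW : U ⊆ W) (hU'W' : U' ⊆ W')
    (hmapW : MapsTo Y.f W' W) (hmap : MapsTo Y.f U' U) (h : ℂ → ℂ → ℂ) (hh : ∀ s ∈ Y.S, s ∈ U → HS Y W W' s (h s)) (z₀ : ℂ) (hz₀ : z₀ ∈ U')
    (c : ℂ) (hc : c ∈ UD) (hF0 : deriv (fun u => cx U (Y.f z₀) (Y.f (rm U' z₀ u))) c = 0) :
    Tendsto (fun u => (∏ s ∈ Y.S.filter (fun s => s ∈ U), h s (rm U' z₀ u)) / deriv (fun u => cx U (Y.f z₀) (Y.f (rm U' z₀ u))) u) (𝓝[≠] c) (𝓝 0) := by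
  obtain ⟨hFd, hFm, hρ, -, hcrit⟩ := LSX_F hTDF hTPM Y.f hY.dif U U' hU hU' hmap z₀ hz₀
  obtain ⟨hU'o, -, hU'a⟩ := hTDF U' hU'
  obtain ⟨hRM', -, -, -, hcxd', hb', hx'⟩ := hU'a z₀ hz₀
  obtain ⟨hUo, -, hUa⟩ := hTDF U hU
  obtain ⟨hRM, -, -, -, hcxd, hb, hx⟩ := hUa (Y.f z₀) (hmap hz₀)
  obtain ⟨hW'o, -, hW'a⟩ := hTDF W' hW'
  set F : ℂ → ℂ := fun u => cx U (Y.f z₀) (Y.f (rm U' z₀ u)) with hFdef
  have hcin : rm U' z₀ c ∈ U' := (hρ c hc).1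
  have hf0 : deriv Y.f (rm U' z₀ c) = 0 := hcrit c hc hF0
  have hs'S : Y.f (rm U' z₀ c) ∈ Y.S := hY.cri _ hf0
  have hs'U : Y.f (rm U' z₀ c) ∈ U := hmap hcin
  set s' : ℂ := Y.f (rm U' z₀ c) with hs'
  have hUDc : UD ∈ 𝓝 c := LSX_isOpenUD.mem_nhds hc
  have hcontφ : ContinuousAt (rm U' z₀) c := (hRM'.dif.differentiableAt hUDc).continuousAt
  have hcontF : ContinuousAt F c := (hFd.differentiableAt hUDc).continuousAt
  -- nonconstancy
  have hnc : ¬ (∀ᶠ u in 𝓝 c, F u = F c) := by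
    intro hev
    have hcx : ContinuousAt (cx U' z₀) (rm U' z₀ c) := (hcxd'.differentiableAt (hU'o.mem_nhds hcin)).continuousAt
    have hcxc : cx U' z₀ (rm U' z₀ c) = c := (hx' c hc).2.1
    have ht : Tendsto (cx U' z₀) (𝓝 (rm U' z₀ c)) (𝓝 c) := by
      have := hcx.tendsto
      rwa [hcxc] at this
    have hev2 := ht.eventually hev
    have hev3 : ∀ᶠ z in 𝓝 (rm U' z₀ c), Y.f z = s' := by
      filter_upwards [hev2, hU'o.mem_nhds hcin] with z hz1 hz2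
      have h1 := (hρ (cx U' z₀ z) (hb' z hz2).1).2
      rw [(hb' z hz2).2.1] at h1
      have h2 := (hρ c hc).2
      rw [← h1, hs', ← h2]
      have h3 : F (cx U' z₀ z) = cx U (Y.f z₀) (Y.f z) := by simp only [hFdef, (hb' z hz2).2.1]
      rw [← h3, hz1]
    have han : AnalyticOnNhd ℂ Y.f univ := fun x _ => (hY.dif.differentiableOn (s := univ)).analyticAt univ_mem
    have han2 : AnalyticOnNhd ℂ (fun _ : ℂ => s') univ := fun x _ => analyticAt_const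
    have heq := han.eq_of_eventuallyEq han2 hev3
    obtain ⟨z, w, hzw⟩ := hY.nct
    apply hzw
    rw [heq]
  have hLS := hLSD F c (hFd.analyticAt hUDc) hnc
  -- bound for the factor of s'
  have hHS := hHSB Y hY W W' hW hW' hmapW s' (hUW hs'U)
  have hHS2 := hHS.2.2 (h s') (hh s' hs'S hs'U)
  have hFc : ‖F c‖ < 1 := LSX_mem.1 (hFm hc)
  have hpdle : ∀ u ∈ UD, pd W (Y.f (rm U' z₀ u)) s' ≤ ‖F u - F c‖ / (1 - ‖F c‖) := by
    intro u hu
    have h1 := (hTIN U W hU hW hUW (Y.f (rm U' z₀ u)) (hmap (hρ u hu).1)).2 s'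
    refine h1.trans ?_
    have h2 := ((hTPM U (Y.f z₀) (rm U (Y.f z₀)) hRM).2 (F u) (hFm hu)).2 (F c) (hFm hc)
    rw [(hρ u hu).2, (hρ c hc).2] at h2
    rw [hs', h2]
    unfold HY.T
    rw [norm_div, norm_sub_rev]
    have hFu : ‖F u‖ < 1 := LSX_mem.1 (hFm hu)
    have h3 : 1 - ‖F c‖ ≤ ‖1 - (starRingEnd ℂ) (F u) * F c‖ := by
      have h4 : ‖(1 : ℂ)‖ - ‖(starRingEnd ℂ) (F u) * F c‖ ≤ ‖1 - (starRingEnd ℂ) (F u) * F c‖ := norm_sub_norm_le _ _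
      rw [norm_one, norm_mul, RCLike.norm_conj] at h4
      have h5 : ‖F u‖ * ‖F c‖ ≤ ‖F c‖ := mul_le_of_le_one_left (norm_nonneg _) hFu.le
      linarith
    exact div_le_div_of_nonneg_left (norm_nonneg _) (by linarith) h3
  obtain ⟨m, hm, hmev⟩ : ∃ m : ℝ, 0 < m ∧ ∀ᶠ u in 𝓝 c, ‖h s' (rm U' z₀ u)‖ * m ≤ pd W (Y.f (rm U' z₀ u)) s' := by
    rcases hHS2.2 with hα | ⟨q, hq, hfq, hdq, hβ⟩
    · refine ⟨1, one_pos, ?_⟩
      filter_upwards [hUDc] with u hu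
      rw [mul_one, hα _ (hU'W' (hρ u hu).1)]
    · have hqc : q ≠ rm U' z₀ c := by
        rintro rfl
        exact hdq hf0
      have hcW' : rm U' z₀ c ∈ W' := hU'W' hcin
      obtain ⟨-, -, -, hpaa, hcxdW, hbW, -⟩ := hW'a (rm U' z₀ c) hcW'
      have hDpos : 0 < pd W' (rm U' z₀ c) q := by
        rcases (hbW q hq).2.2.2.2.1.lt_or_eq with h1 | h1
        · exact h1
        · exact absurd ((hbW q hq).2.2.2.2.2 h1.symm) hqc
      refine ⟨pd W' (rm U' z₀ c) q / 2, half_pos hDpos, ?_⟩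
      have hcont : Tendsto (fun u => ‖cx W' (rm U' z₀ c) (rm U' z₀ u)‖) (𝓝 c) (𝓝 0) := by
        have h1 : ContinuousAt (cx W' (rm U' z₀ c)) (rm U' z₀ c) := (hcxdW.differentiableAt (hW'o.mem_nhds hcW')).continuousAt
        have h2 : ContinuousAt (fun u => cx W' (rm U' z₀ c) (rm U' z₀ u)) c :=
          ContinuousAt.comp (f := rm U' z₀) (g := cx W' (rm U' z₀ c)) h1 hcontφ
        have h3 := h2.norm.tendsto
        rw [(hW'a (rm U' z₀ c) hcW').2.2.1, norm_zero] at h3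
        exact h3
      have hev := hcont.eventually (gt_mem_nhds (half_pos hDpos))
      filter_upwards [hev, hUDc] with u hu1 hu2
      have huW' : rm U' z₀ u ∈ W' := hU'W' (hρ u hu2).1
      rw [← hβ _ huW']
      refine mul_le_mul_of_nonneg_left ?_ (norm_nonneg _)
      have h1 := (hTPT W' hW' _ hcW' _ huW' _ hq).2.1
      have h2 := (hbW _ huW').2.2.1
      linarith
  -- conclusion
  have hFc1 : 0 < 1 - ‖F c‖ := by linarith
  have hlim0 : Tendsto (fun u => 1 / (m * (1 - ‖F c‖)) * ‖(F u - F c) / deriv F u‖) (𝓝[≠] c) (𝓝 0) := by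
    have h1 := hLS.norm
    rw [norm_zero] at h1
    have h2 := h1.const_mul (1 / (m * (1 - ‖F c‖)))
    rwa [mul_zero] at h2
  refine squeeze_zero_norm' ?_ hlim0
  have hev : ∀ᶠ u in 𝓝[≠] c, u ∈ UD := nhdsWithin_le_nhds hUDc
  have hev2 : ∀ᶠ u in 𝓝[≠] c, ‖h s' (rm U' z₀ u)‖ * m ≤ pd W (Y.f (rm U' z₀ u)) s' := nhdsWithin_le_nhds hmev
  filter_upwards [hev, hev2] with u hu hu2
  rw [norm_div, norm_div]
  have hNle : ‖∏ s ∈ Y.S.filter (fun s => s ∈ U), h s (rm U' z₀ u)‖ ≤ ‖h s' (rm U' z₀ u)‖ := by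
    have hmem : s' ∈ Y.S.filter (fun s => s ∈ U) := Finset.mem_filter.2 ⟨hs'S, hs'U⟩
    rw [← Finset.mul_prod_erase _ _ hmem, norm_mul]
    refine mul_le_of_le_one_right (norm_nonneg _) ?_
    rw [norm_prod]
    refine Finset.prod_le_one (fun i _ => norm_nonneg _) (fun i hi => ?_)
    have hi2 := Finset.mem_filter.1 (Finset.mem_of_mem_erase hi)
    have h5 := (hHSB Y hY W W' hW hW' hmapW i (hUW hi2.2)).2.2 (h i) (hh i hi2.1 hi2.2)
    exact (h5.1 _ (hU'W' (hρ u hu).1)).1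
  have h6 := hpdle u hu
  have h7 : ‖h s' (rm U' z₀ u)‖ ≤ 1 / (m * (1 - ‖F c‖)) * ‖F u - F c‖ := by
    have h8 : ‖h s' (rm U' z₀ u)‖ * m ≤ ‖F u - F c‖ / (1 - ‖F c‖) := hu2.trans h6
    rw [le_div_iff₀ hFc1] at h8
    rw [one_div, inv_mul_eq_div, le_div_iff₀ (mul_pos hm hFc1)]
    linarith
  calc ‖∏ s ∈ Y.S.filter (fun s => s ∈ U), h s (rm U' z₀ u)‖ / ‖deriv F u‖
      ≤ (1 / (m * (1 - ‖F c‖)) * ‖F u - F c‖) / ‖deriv F u‖ := div_le_div_of_nonneg_right (hNle.trans h7) (norm_nonneg _)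
    _ = 1 / (m * (1 - ‖F c‖)) * (‖F u - F c‖ / ‖deriv F u‖) := by rw [mul_div_assoc]

open Classical in
/-- the boundary. -/
lemma LSX_B (hHSB : HSB_stmt) (hSTP : STP_stmt) (hKKF : CSF.KKF_stmt) (hTDF : PM.TDF_stmt) (hTPT : PM.TPT_stmt) (hTSP : PM.TSP_stmt) (hTIN : PM.TIN_stmt)
    (Y : Sy) (hY : Ok Y) (W W' U U' : Set ℂ) (hW : DD W) (hW' : DD W') (hU : DD U) (hU' : DD U') (hUW : U ⊆ W) (hU'W' : U' ⊆ W')
    (hmapW : MapsTo Y.f W' W) (hmap : MapsTo Y.f U' U) (hcc : ∀ z ∈ U', U' = connectedComponentIn (Y.f ⁻¹' U) z)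
    (h : ℂ → ℂ → ℂ) (hh : ∀ s ∈ Y.S, s ∈ U → HS Y W W' s (h s)) (z₀ : ℂ) (hz₀ : z₀ ∈ U') (ε : ℝ) (hε : 0 < ε) :
    ∃ r : ℝ, r < 1 ∧ ∀ u ∈ UD, r < ‖u‖ → (∏ s ∈ Y.S.filter (fun s => s ∈ U), ‖h s (rm U' z₀ u)‖) ≤ (1 + ε) * hdf Y.f U' U (rm U' z₀ u) := by
  obtain ⟨hU'o, -, hU'a⟩ := hTDF U' hU'
  obtain ⟨hRM', -, -, -, hcxd', hb', hx'⟩ := hU'a z₀ hz₀
  obtain ⟨hUo, -, hUa⟩ := hTDF U hU
  obtain ⟨hW'o, -, hW'a⟩ := hTDF W' hW'
  have hz₀W : z₀ ∈ W' := hU'W' hz₀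
  obtain ⟨hRMW, -, -, -, hcxdW, hbW, hxW⟩ := hW'a z₀ hz₀W
  by_contra hcon
  push Not at hcon
  have hseq : ∀ n : ℕ, ∃ u ∈ UD, 1 - 1 / ((n : ℝ) + 1) < ‖u‖ ∧
      (1 + ε) * hdf Y.f U' U (rm U' z₀ u) < ∏ s ∈ Y.S.filter (fun s => s ∈ U), ‖h s (rm U' z₀ u)‖ := fun n =>
    hcon (1 - 1 / ((n : ℝ) + 1)) (by
      have : 0 < 1 / ((n : ℝ) + 1) := by positivity
      linarith)
  choose u hu1 hu2 hu3 using hseq
  have huU' : ∀ n, rm U' z₀ (u n) ∈ U' := fun n => (hx' _ (hu1 n)).1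
  have hxn : ∀ n, cx W' z₀ (rm U' z₀ (u n)) ∈ closedBall (0 : ℂ) 1 := by
    intro n
    rw [mem_closedBall, dist_zero_right]
    exact (LSX_mem.1 (hbW _ (hU'W' (huU' n))).1).le
  obtain ⟨a, ha, σ, hσ, hlim⟩ := (isCompact_closedBall (0 : ℂ) 1).tendsto_subseq hxn
  rw [mem_closedBall, dist_zero_right] at ha
  have hunorm : Tendsto (fun n => ‖u (σ n)‖) atTop (𝓝 1) := by
    have h1 : Tendsto (fun n : ℕ => 1 - 1 / ((n : ℝ) + 1)) atTop (𝓝 1) := by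
      have := tendsto_one_div_add_atTop_nhds_zero_nat (𝕜 := ℝ)
      have h2 := this.const_sub 1
      rwa [sub_zero] at h2
    have h2 : Tendsto (fun n => ‖u n‖) atTop (𝓝 1) :=
      tendsto_of_tendsto_of_tendsto_of_le_of_le h1 tendsto_const_nhds (fun n => (hu2 n).le) (fun n => (LSX_mem.1 (hu1 n)).le)
    exact h2.comp hσ.tendsto_atTop
  -- notation
  have hzU' : ∀ n, rm U' z₀ (u (σ n)) ∈ U' := fun n => huU' (σ n)
  have hbad : ∀ n, (1 + ε) * hdf Y.f U' U (rm U' z₀ (u (σ n))) < ∏ s ∈ Y.S.filter (fun s => s ∈ U), ‖h s (rm U' z₀ (u (σ n)))‖ := fun n => hu3 (σ n)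
  have hhdf0 : ∀ z ∈ U', 0 ≤ hdf Y.f U' U z := fun z hz => (hTSP U' U Y.f hU' hU hY.dif.differentiableOn hmap z hz).2.1
  have hle1 : ∀ z ∈ U', ∀ s ∈ Y.S.filter (fun s => s ∈ U), ‖h s z‖ ≤ 1 := by
    intro z hz s hs
    have hs2 := Finset.mem_filter.1 hs
    exact (((hHSB Y hY W W' hW hW' hmapW s (hUW hs2.2)).2.2 (h s) (hh s hs2.1 hs2.2)).1 z (hU'W' hz)).1
  rcases lt_or_eq_of_le ha with ha1 | ha1
  · -- case (i)
    have haUD : a ∈ UD := LSX_mem.2 ha1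
    have hζlim : Tendsto (fun n => rm U' z₀ (u (σ n))) atTop (𝓝 (rm W' z₀ a)) := by
      have h1 : ContinuousAt (rm W' z₀) a := (hRMW.dif.differentiableAt (LSX_isOpenUD.mem_nhds haUD)).continuousAt
      have h2 := h1.tendsto.comp hlim
      refine h2.congr (fun n => ?_)
      exact (hbW _ (hU'W' (huU' (σ n)))).2.1
    have hζU' : rm W' z₀ a ∉ U' := by
      intro hζ
      have h1 : ContinuousAt (cx U' z₀) (rm W' z₀ a) := (hcxd'.differentiableAt (hU'o.mem_nhds hζ)).continuousAt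
      have h2 := (h1.tendsto.comp hζlim).norm
      have h3 : Tendsto (fun n => ‖u (σ n)‖) atTop (𝓝 ‖cx U' z₀ (rm W' z₀ a)‖) := by
        refine h2.congr (fun n => ?_)
        simp only [Function.comp]
        rw [(hx' _ (hu1 (σ n))).2.1]
      have h4 := tendsto_nhds_unique h3 hunorm
      have h5 := LSX_mem.1 (hb' _ hζ).1
      rw [h4] at h5
      exact lt_irrefl _ h5
    have hfζU : Y.f (rm W' z₀ a) ∉ U := by
      intro hfζ
      have hopen : IsOpen (Y.f ⁻¹' U) := hUo.preimage hY.dif.continuous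
      obtain ⟨δ, hδ, hball⟩ := Metric.isOpen_iff.1 hopen (rm W' z₀ a) hfζ
      have hev : ∀ᶠ n in atTop, rm U' z₀ (u (σ n)) ∈ ball (rm W' z₀ a) δ := hζlim (ball_mem_nhds (rm W' z₀ a) hδ)
      obtain ⟨n, hn⟩ := hev.exists
      apply hζU'
      rw [hcc _ (hzU' n)]
      have hpre : IsPreconnected (ball (rm W' z₀ a) δ) := (convex_ball _ _).isPreconnected
      exact hpre.subset_connectedComponentIn hn hball (mem_ball_self hδ)
    have hflim : Tendsto (fun n => Y.f (rm U' z₀ (u (σ n)))) atTop (𝓝 (Y.f (rm W' z₀ a))) :=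
      (hY.dif.continuous.tendsto _).comp hζlim
    have hpdlim : ∀ s ∈ Y.S.filter (fun s => s ∈ U), Tendsto (fun n => pd U (Y.f (rm U' z₀ (u (σ n)))) s) atTop (𝓝 1) := by
      intro s hs
      exact LSX_C hTDF hTPT U hU s (Finset.mem_filter.1 hs).2 _ (fun n => hmap (hzU' n)) _ hfζU hflim
    have hkklim : Tendsto (fun n => ∏ s ∈ Y.S.filter (fun s => s ∈ U), CSF.kk (pd U (Y.f (rm U' z₀ (u (σ n)))) s)) atTop (𝓝 1) := by
      have h1 : Tendsto (fun n => ∏ s ∈ Y.S.filter (fun s => s ∈ U), CSF.kk (pd U (Y.f (rm U' z₀ (u (σ n)))) s)) atTop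
          (𝓝 (∏ s ∈ Y.S.filter (fun s => s ∈ U), (1 : ℝ))) := by
        refine tendsto_finsetProd _ (fun s hs => ?_)
        have hsU := (Finset.mem_filter.1 hs).2
        have hpd01 : ∀ n, 0 ≤ pd U (Y.f (rm U' z₀ (u (σ n)))) s ∧ pd U (Y.f (rm U' z₀ (u (σ n)))) s ≤ 1 := fun n =>
          ⟨((hUa _ (hmap (hzU' n))).2.2.2.2.2.1 s hsU).2.2.2.2.1, ((hUa _ (hmap (hzU' n))).2.2.2.2.2.1 s hsU).2.2.2.1.le⟩
        exact tendsto_of_tendsto_of_tendsto_of_le_of_le (hpdlim s hs) tendsto_const_nhds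
          (fun n => (hKKF.2.2.1 _ (hpd01 n).1 (hpd01 n).2).1) (fun n => (hKKF.2.2.1 _ (hpd01 n).1 (hpd01 n).2).2)
      rwa [Finset.prod_const_one] at h1
    have hev1 : ∀ᶠ n in atTop, ∀ s ∈ Y.S.filter (fun s => s ∈ U), 1 / 2 < pd U (Y.f (rm U' z₀ (u (σ n)))) s :=
      (Finset.eventually_all _).2 (fun s hs => (hpdlim s hs).eventually (lt_mem_nhds (by norm_num)))
    have hev2 : ∀ᶠ n in atTop, 1 / (1 + ε) < ∏ s ∈ Y.S.filter (fun s => s ∈ U), CSF.kk (pd U (Y.f (rm U' z₀ (u (σ n)))) s) :=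
      hkklim.eventually (lt_mem_nhds (by rw [div_lt_one (by linarith)]; linarith))
    obtain ⟨n, hn1, hn2⟩ := (hev1.and hev2).exists
    have hfS : Y.f (rm U' z₀ (u (σ n))) ∉ Y.S := by
      intro hmem
      have h1 := hn1 _ (Finset.mem_filter.2 ⟨hmem, hmap (hzU' n)⟩)
      rw [(hUa _ (hmap (hzU' n))).2.2.2.1] at h1
      linarith
    have h1 := LSX_A hSTP hKKF hTDF hTIN Y hY U U' hU hU' hcc _ (hzU' n) hfS
    have h2 := hbad n
    have h3 : ∏ s ∈ Y.S.filter (fun s => s ∈ U), ‖h s (rm U' z₀ (u (σ n)))‖ ≤ 1 :=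
      Finset.prod_le_one (fun _ _ => norm_nonneg _) (fun s hs => hle1 _ (hzU' n) s hs)
    have h4 : 1 < (1 + ε) * hdf Y.f U' U (rm U' z₀ (u (σ n))) := by
      have h5 := lt_of_lt_of_le hn2 h1
      rw [div_lt_iff₀ (by linarith)] at h5
      linarith
    linarith
  · -- case (ii)
    have hpd0 : Tendsto (fun n => pd W' z₀ (rm U' z₀ (u (σ n)))) atTop (𝓝 1) := by
      have h1 := hlim.norm
      rw [ha1] at h1
      refine h1.congr (fun n => ?_)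
      exact (hbW _ (hU'W' (hzU' n))).2.2.1.symm
    have hD : ∀ s ∈ Y.S.filter (fun s => s ∈ U), ∃ D : ℂ → ℝ, (∀ z ∈ W', ‖h s z‖ * D z = pd W (Y.f z) s) ∧
        Tendsto (fun n => D (rm U' z₀ (u (σ n)))) atTop (𝓝 1) := by
      intro s hs
      have hs2 := Finset.mem_filter.1 hs
      have hHS2 := (hHSB Y hY W W' hW hW' hmapW s (hUW hs2.2)).2.2 (h s) (hh s hs2.1 hs2.2)
      rcases hHS2.2 with hα | ⟨q, hq, -, -, hβ⟩
      · exact ⟨fun _ => 1, fun z hz => by rw [mul_one, hα z hz], tendsto_const_nhds⟩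
      · refine ⟨fun z => pd W' z q, hβ, ?_⟩
        have hpq : pd W' z₀ q < 1 := (hbW q hq).2.2.2.1
        have hlow : Tendsto (fun n => 1 - 4 * (1 - pd W' z₀ (rm U' z₀ (u (σ n)))) / (1 - pd W' z₀ q)) atTop (𝓝 1) := by
          have h1 := (((hpd0.const_sub 1).const_mul 4).div_const (1 - pd W' z₀ q)).const_sub 1
          simpa using h1
        refine tendsto_of_tendsto_of_tendsto_of_le_of_le hlow tendsto_const_nhds (fun n => ?_) (fun n => ?_)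
        · have h1 := (hTPT W' hW' z₀ hz₀W q hq _ (hU'W' (hzU' n))).2.2.1
          have h2 := (hTPT W' hW' q hq _ (hU'W' (hzU' n)) q hq).1
          simp only
          rw [← h2]
          linarith
        · exact ((hW'a _ (hU'W' (hzU' n))).2.2.2.2.2.1 q hq).2.2.2.1.le
    choose! D hD1 hD2 using hD
    have hprodlim : Tendsto (fun n => ∏ s ∈ Y.S.filter (fun s => s ∈ U), D s (rm U' z₀ (u (σ n)))) atTop (𝓝 1) := by
      have h1 : Tendsto (fun n => ∏ s ∈ Y.S.filter (fun s => s ∈ U), D s (rm U' z₀ (u (σ n)))) atTop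
          (𝓝 (∏ s ∈ Y.S.filter (fun s => s ∈ U), (1 : ℝ))) := tendsto_finsetProd _ (fun s hs => hD2 s hs)
      rwa [Finset.prod_const_one] at h1
    have hev1 : ∀ᶠ n in atTop, ∀ s ∈ Y.S.filter (fun s => s ∈ U), 0 < D s (rm U' z₀ (u (σ n))) :=
      (Finset.eventually_all _).2 (fun s hs => (hD2 s hs).eventually (lt_mem_nhds (by norm_num)))
    have hev2 : ∀ᶠ n in atTop, 1 / (1 + ε) < ∏ s ∈ Y.S.filter (fun s => s ∈ U), D s (rm U' z₀ (u (σ n))) :=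
      hprodlim.eventually (lt_mem_nhds (by rw [div_lt_one (by linarith)]; linarith))
    obtain ⟨n, hn1, hn2⟩ := (hev1.and hev2).exists
    have hbadn := hbad n
    have hh0 := hhdf0 _ (hzU' n)
    by_cases hfS : Y.f (rm U' z₀ (u (σ n))) ∈ Y.S
    · have hmem : Y.f (rm U' z₀ (u (σ n))) ∈ Y.S.filter (fun s => s ∈ U) := Finset.mem_filter.2 ⟨hfS, hmap (hzU' n)⟩
      have h1 := hD1 _ hmem _ (hU'W' (hzU' n))
      rw [((hTDF W hW).2.2 _ (hUW (hmap (hzU' n)))).2.2.2.1] at h1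
      have h2 : ‖h (Y.f (rm U' z₀ (u (σ n)))) (rm U' z₀ (u (σ n)))‖ = 0 := by
        rcases mul_eq_zero.1 h1 with h3 | h3
        · exact h3
        · exact absurd h3 (hn1 _ hmem).ne'
      rw [Finset.prod_eq_zero hmem h2] at hbadn
      have : 0 ≤ (1 + ε) * hdf Y.f U' U (rm U' z₀ (u (σ n))) := mul_nonneg (by linarith) hh0
      linarith
    · have h1 := LSX_A hSTP hKKF hTDF hTIN Y hY U U' hU hU' hcc _ (hzU' n) hfS
      have h2 : (∏ s ∈ Y.S.filter (fun s => s ∈ U), ‖h s (rm U' z₀ (u (σ n)))‖) * (∏ s ∈ Y.S.filter (fun s => s ∈ U), D s (rm U' z₀ (u (σ n))))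
          ≤ ∏ s ∈ Y.S.filter (fun s => s ∈ U), CSF.kk (pd U (Y.f (rm U' z₀ (u (σ n)))) s) := by
        rw [← Finset.prod_mul_distrib]
        refine Finset.prod_le_prod (fun s hs => mul_nonneg (norm_nonneg _) (hn1 s hs).le) (fun s hs => ?_)
        rw [hD1 s hs _ (hU'W' (hzU' n))]
        have hsU := (Finset.mem_filter.1 hs).2
        have h3 := (hTIN U W hU hW hUW _ (hmap (hzU' n))).2 s
        have h4 := (hUa _ (hmap (hzU' n))).2.2.2.2.2.1 s hsU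
        exact h3.trans (hKKF.2.2.1 _ h4.2.2.2.2.1 h4.2.2.2.1.le).1
      have hN0 : 0 ≤ ∏ s ∈ Y.S.filter (fun s => s ∈ U), ‖h s (rm U' z₀ (u (σ n)))‖ := Finset.prod_nonneg (fun _ _ => norm_nonneg _)
      have h5 : (∏ s ∈ Y.S.filter (fun s => s ∈ U), ‖h s (rm U' z₀ (u (σ n)))‖) * (1 / (1 + ε)) ≤ hdf Y.f U' U (rm U' z₀ (u (σ n))) :=
        (mul_le_mul_of_nonneg_left hn2.le hN0).trans (h2.trans h1)
      rw [mul_one_div, div_le_iff₀ (by linarith)] at h5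
      linarith

open Classical in
/-- THE ONE STEP INEQUALITY. -/
theorem LSX (hLSP : LSP_stmt) (hLSD : LSD_stmt) (hHSB : HSB_stmt) (hSTP : STP_stmt) (hKKF : CSF.KKF_stmt) (hTDF : PM.TDF_stmt) (hTPM : PM.TPM_stmt)
    (hTPT : PM.TPT_stmt) (hTSP : PM.TSP_stmt) (hTIN : PM.TIN_stmt) : LSX_stmt := by
  intro Y hY W W' U U' hW hW' hU hU' hUW hU'W' hmapW hcc h hh z₀ hz₀
  have hmap : MapsTo Y.f U' U := by
    intro z hz
    have h1 : z ∈ connectedComponentIn (Y.f ⁻¹' U) z := by rw [← hcc z hz]; exact hz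
    have h2 : z ∈ Y.f ⁻¹' U := connectedComponentIn_subset _ _ h1
    exact h2
  obtain ⟨hFd, hFm, hρ, hhq, -⟩ := LSX_F hTDF hTPM Y.f hY.dif U U' hU hU' hmap z₀ hz₀
  have h0UD : (0 : ℂ) ∈ UD := LSX_mem.2 (by rw [norm_zero]; norm_num)
  obtain ⟨hU'o, -, hU'a⟩ := hTDF U' hU'
  have hRM' := (hU'a z₀ hz₀).1
  have hdh : ∀ s ∈ Y.S.filter (fun s => s ∈ U), DifferentiableOn ℂ (fun u => h s (rm U' z₀ u)) UD := by
    intro s hs
    have hs2 := Finset.mem_filter.1 hs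
    exact (hh s hs2.1 hs2.2).dif.comp hRM'.dif (fun u hu => hU'W' (hρ u hu).1)
  have key := hLSP (fun u => cx U (Y.f z₀) (Y.f (rm U' z₀ u))) (fun u => ∏ s ∈ Y.S.filter (fun s => s ∈ U), h s (rm U' z₀ u)) hFd hFm ?_ ?_ ?_ ?_
    0 h0UD
  · rw [hhq 0 h0UD, hRM'.val, norm_prod] at key
    exact key
  · exact DifferentiableOn.fun_finsetProd hdh
  · intro u hu
    rw [norm_prod]
    refine Finset.prod_le_one (fun _ _ => norm_nonneg _) (fun s hs => ?_)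
    have hs2 := Finset.mem_filter.1 hs
    exact (((hHSB Y hY W W' hW hW' hmapW s (hUW hs2.2)).2.2 (h s) (hh s hs2.1 hs2.2)).1 _ (hU'W' (hρ u hu).1)).1
  · intro c hc hF0
    exact LSX_D hLSD hHSB hTDF hTPM hTPT hTIN Y hY W W' U U' hW hW' hU hU' hUW hU'W' hmapW hmap h hh z₀ hz₀ c hc hF0
  · intro ε hε
    obtain ⟨r, hr, H⟩ := LSX_B hHSB hSTP hKKF hTDF hTPT hTSP hTIN Y hY W W' U U' hW hW' hU hU' hUW hU'W' hmapW hmap hcc h hh z₀ hz₀ ε hε
    refine ⟨r, hr, fun u hu hru => ?_⟩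
    rw [norm_prod, hhq u hu]
    exact H u hu hru

end CSJ
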